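import Pool.Agent.Y710.NZ.Calc
import Pool.Agent.Y98.SZ.Adj
import Pool.Agent.Y547.SZ.Kda

/-!
# NZ-ABS: the descent criterion, abstract form
-/

set_option autoImplicit false
set_option linter.all false

open Polynomial IsDedekindDomain
open scoped Classical

namespace Pool.Agent.Y710.NZ

open Finset
open Pool.Agent.Y164.SZ
open Pool.Agent.Y164.NZ
open Pool.Agent.Y713.SE (hp Pw not_pw_exp)
open Pool.Agent.Y713.SE.Dat (au)
open Pool.Agent.Y164.PS (Fam)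

theorem exp_lt : (WithZero.exp (-1 : ℤ)) < 1 := by
  rw [← WithZero.exp_zero, WithZero.exp_lt_exp]
  norm_num

theorem third {n : ℕ} (h3 : 3 ≤ n) (i j : Fin n) : ∃ l, l ≠ i ∧ l ≠ j := by
  have h1 : ({i, j} : Finset (Fin n)).card < (univ : Finset (Fin n)).card := by
    rw [card_univ, Fintype.card_fin]
    exact lt_of_le_of_lt card_le_two (by omega)
  obtain ⟨c, -, hc⟩ := exists_mem_notMem_of_card_lt_card h1
  rw [mem_insert, mem_singleton, not_or] at hc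
  exact ⟨c, hc⟩

/-- local powers: the change of the adjusting vector -/
theorem loc_shift {ℓ : ℕ} [hℓ : Fact ℓ.Prime] {K : Type} [Field K] {n : ℕ}
    (D0 : Y713.SE.Dat ℓ n K) (Kv : Type) [Field Kv] [Algebra K Kv] (mi : Fin n → K)
    (mv m : Fin n → ℕ) (hm : ∀ i j, (mv i : ZMod ℓ) - mv j = (m i : ZMod ℓ) - m j) (i j : Fin n)
    (h : ∃ z : Kv, algebraMap K Kv (mi i * Tm D0 mv i) = z ^ ℓ * algebraMap K Kv (mi j * Tm D0 mv j)) :
    ∃ z : Kv, algebraMap K Kv (mi i * Tm D0 m i) = z ^ ℓ * algebraMap K Kv (mi j * Tm D0 m j) := by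
  obtain ⟨s, hs⟩ : ∃ s : ℕ, (s : ZMod ℓ) = (m i : ZMod ℓ) - mv i :=
    ⟨((m i : ZMod ℓ) - mv i).val, ZMod.natCast_zmod_val _⟩
  have h1 : ∀ l, ((m l : ℕ) : ZMod ℓ) = ((mv l + s : ℕ) : ZMod ℓ) := by
    intro l
    rw [Nat.cast_add, hs]
    linear_combination hm i l
  obtain ⟨zi, hzi, ei⟩ := Tm_modEq D0 m (fun l => mv l + s) h1 i
  obtain ⟨zj, hzj, ej⟩ := Tm_modEq D0 m (fun l => mv l + s) h1 j
  rw [Tm_add D0 mv (fun _ => s), Tm_const] at ei ej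
  obtain ⟨z, hz⟩ := h
  have hzj' : algebraMap K Kv zj ≠ 0 := (_root_.map_ne_zero _).2 hzj
  refine ⟨algebraMap K Kv zi * z / algebraMap K Kv zj, ?_⟩
  rw [ei, ej]
  have e3 : mi i * (zi ^ ℓ * (Tm D0 mv i * D0.δ⁻¹ ^ s)) =
      zi ^ ℓ * D0.δ⁻¹ ^ s * (mi i * Tm D0 mv i) := by ring
  have e4 : mi j * (zj ^ ℓ * (Tm D0 mv j * D0.δ⁻¹ ^ s)) =
      zj ^ ℓ * D0.δ⁻¹ ^ s * (mi j * Tm D0 mv j) := by ring
  have e5 : algebraMap K Kv (zi ^ ℓ * D0.δ⁻¹ ^ s * (mi i * Tm D0 mv i)) =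
      algebraMap K Kv zi ^ ℓ * algebraMap K Kv (D0.δ⁻¹ ^ s) *
        algebraMap K Kv (mi i * Tm D0 mv i) := by
    rw [map_mul, map_mul (algebraMap K Kv) (zi ^ ℓ), map_pow (algebraMap K Kv) zi]
  have e6 : algebraMap K Kv (zj ^ ℓ * D0.δ⁻¹ ^ s * (mi j * Tm D0 mv j)) =
      algebraMap K Kv zj ^ ℓ * algebraMap K Kv (D0.δ⁻¹ ^ s) *
        algebraMap K Kv (mi j * Tm D0 mv j) := by
    rw [map_mul, map_mul (algebraMap K Kv) (zj ^ ℓ), map_pow (algebraMap K Kv) zj]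
  rw [e3, e4, e5, e6, hz, div_pow, mul_pow]
  generalize algebraMap K Kv (D0.δ⁻¹ ^ s) = D
  generalize algebraMap K Kv (mi j * Tm D0 mv j) = G
  field_simp

theorem t : S_ABS := by
  intro ℓ hℓ k K _ _ _ _ F _ _ _ n a N H ι _ T hR S D0 Lk σ hcl hpar hdeg htr E _ _ _ _ p _ Ω
    _ _ _ _ _ _ _ χ hc ht
  obtain ⟨kd⟩ := D0.exists_KD hc
  have hn3 := H.hn3
  obtain ⟨i0⟩ : Nonempty (Fin n) := ⟨⟨0, by omega⟩⟩
  obtain ⟨kd_ne, -, hmm⟩ := Pool.Agent.Y547.SZ.t_kda ℓ n K E D0 χ kd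
  obtain ⟨x00⟩ : Nonempty ι := by
    by_contra hne
    rw [not_nonempty_iff] at hne
    rw [univ_eq_empty, sum_empty] at hdeg
    exact not_isUnit_zero hdeg
  -- the exponent
  obtain ⟨c, hc1⟩ : ∃ c : ℕ, 1 + (n : ZMod ℓ) * (c : ZMod ℓ) = 0 := by
    refine ⟨(-(n : ZMod ℓ)⁻¹).val, ?_⟩
    rw [ZMod.natCast_zmod_val, mul_neg, mul_inv_cancel₀ (cast_ne H.hn), add_neg_cancel]
  -- representations
  have hrep0 : ∀ i, ∃ ω c u, S.rep (kd.d i i0) ω c u := by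
    intro i
    refine S.exi _ (kd_ne _ _) ?_
    intro v hv
    exact D0.good_place (p := p) (fun i j hij => Lk.vGd v hv i j hij) (Lk.vG v hv) (Lk.vl v) (ht v)
      kd i i0
  choose ω0 c0 u0 hcu using hrep0
  obtain ⟨mi, hmi⟩ : ∃ mi : Fin n → K, mi = mm D0 c kd i0 := ⟨_, rfl⟩
  obtain ⟨hmi0', hmir'⟩ := hmm c i0
  have hmi0 : ∀ i, mi i ≠ 0 := fun i => by rw [hmi]; exact hmi0' i
  have hmir : ∀ i j, ∃ z : K, z ≠ 0 ∧ mi i = z ^ ℓ * (kd.d i j * mi j) := by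
    intro i j
    rw [hmi]
    exact hmir' i j
  obtain ⟨W, hW⟩ : ∃ W : Fin n → ZMod ℓ, W = fun i => ω0 i + (c : ZMod ℓ) * ∑ j, ω0 j :=
    ⟨_, rfl⟩
  obtain ⟨cc, hcc⟩ : ∃ cc : Fin n → ZMod ℓ, cc = fun i => c0 i + (c : ZMod ℓ) * ∑ j, c0 j :=
    ⟨_, rfl⟩
  obtain ⟨U, hU⟩ : ∃ U : Fin n → (ι ⊕ Tau a) → ZMod ℓ,
      U = fun i x => u0 i x + (c : ZMod ℓ) * ∑ j, u0 j x := ⟨_, rfl⟩
  have hrepW : ∀ i, S.rep (mi i) (W i) (cc i) (U i) := by
    intro i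
    rw [hmi, hW, hcc, hU]
    exact S.mul (hcu i) (pow' (prod' univ (fun j _ => hcu j)) c)
  have hsum : ∀ f : Fin n → ZMod ℓ, ∑ i, (f i + (c : ZMod ℓ) * ∑ j, f j) = 0 := by
    intro f
    rw [sum_add_distrib, sum_const, card_univ, Fintype.card_fin, nsmul_eq_mul]
    linear_combination (∑ j, f j) * hc1
  have hsW : ∑ i, W i = 0 := by rw [hW]; exact hsum ω0
  have hsc : ∑ i, cc i = 0 := by rw [hcc]; exact hsum c0
  have hsU : ∀ x, ∑ i, U i x = 0 := by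
    intro x
    rw [hU]
    exact hsum (fun i => u0 i x)
  -- adjustments
  have hadj : ∀ mv : Fin n → ℕ, ∃ (Q : ClassGroup (D0.base E).A) (χ' : (E ≃ₐ[K] E) → Fin n → ℕ)
      (kd' : D0.KD χ'), Y713.SE.cl ((D0.base E).PT mv) * (D0.base E).sC Q = Q ∧
      (∀ τ, Y713.SE.cl ((D0.base E).PT (χ' τ)) =
        Y713.SE.cl ((D0.base E).PT (χ τ)) / (D0.mC (au τ) Q / Q)) ∧
      ∀ i j, ∃ z : K, z ≠ 0 ∧
        mi i * Tm D0 mv i = z ^ ℓ * (kd'.d i j * (mi j * Tm D0 mv j)) := by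
    intro mv
    obtain ⟨Q, χ', hQ, hχ', hc'⟩ := D0.exists_adj (p := p) mv hc
    obtain ⟨kd'⟩ := D0.exists_KD hc'
    refine ⟨Q, χ', kd', hQ, hχ', fun i j => ?_⟩
    obtain ⟨x, hx, e1⟩ := Pool.Agent.Y98.SZ.Adj.t ℓ n K D0 E H.hl mv χ χ' kd kd' Q hQ hχ' i j
    obtain ⟨z, hz, e2⟩ := hmir i j
    refine ⟨z / x, div_ne_zero hz hx, ?_⟩
    have hxl : x ^ ℓ ≠ 0 := pow_ne_zero _ hx
    have e3 : mi i * Tm D0 mv i * x ^ ℓ = z ^ ℓ * (kd'.d i j * (mi j * Tm D0 mv j)) := by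
      have e4 : mi i * Tm D0 mv i * x ^ ℓ = z ^ ℓ * (kd.d i j * mi j) * Tm D0 mv i * x ^ ℓ :=
        congrArg (fun y => y * Tm D0 mv i * x ^ ℓ) e2
      rw [e4]
      linear_combination (-(z ^ ℓ * mi j)) * e1
    rw [div_pow, div_mul_eq_mul_div, eq_div_iff hxl]
    exact e3
  have hloc : ∀ (v : HeightOneSpectrum k[X]) (a b d z : K), a = z ^ ℓ * (d * b) →
      (∃ x : v.adicCompletion K, algebraMap K (v.adicCompletion K) d = x ^ ℓ) →
      ∃ x : v.adicCompletion K, algebraMap K (v.adicCompletion K) a =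
        x ^ ℓ * algebraMap K (v.adicCompletion K) b := by
    rintro v a b d z rfl ⟨x, hx⟩
    exact ⟨algebraMap K _ z * x, by rw [map_mul, map_mul, map_pow, hx]; ring⟩
  -- twist places
  have hTl : ∀ x : ι, ∃ mv : Fin n → ℕ, ∀ i j,
      ∃ z : (S.pl (Sum.inl x)).adicCompletion K,
      algebraMap K _ (mi i * Tm D0 mv i) = z ^ ℓ * algebraMap K _ (mi j * Tm D0 mv j) := by
    intro x
    obtain ⟨v, hv⟩ : ∃ v, v = S.pl (Sum.inl x) := ⟨_, rfl⟩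
    obtain ⟨mv, hmv⟩ := D0.twist_place (p := p) (v := v) (Ω := Ω v) (fun i j hij => by
      rw [hv]
      exact Lk.vTd x i j hij) (by
      rw [hv, Lk.vT x]
      exact not_pw_exp hℓ.out) (Lk.vl v) (ht v)
    refine ⟨mv, fun i j => ?_⟩
    obtain ⟨Q, χ', kd', hQ, hχ', hz⟩ := hadj mv
    obtain ⟨z, hz0, e⟩ := hz i j
    rw [← hv]
    exact hloc v _ _ _ z e (hmv Q χ' kd' hQ hχ' i j)
  -- the valuation of the constants
  have hW0 : W = 0 := by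
    refine const_zero H.hn W hsW fun i j => ?_
    obtain ⟨mv, hmv⟩ := hTl x00
    have h1 := (quot_loc (S.mul (hrepW i) (rep_Tm Lk mv i)) (S.mul (hrepW j) (rep_Tm Lk mv j))
      (Sum.inl x00) (hmv i j)).1
    linear_combination h1
  have hrep : ∀ i, S.rep (mi i) 0 (cc i) (U i) := by
    intro i
    have h1 := hrepW i
    rw [hW0] at h1
    exact h1
  -- nodes
  have hCl : ∀ s : Tau a, ∃ r : ℕ,
      (∀ i, U i (Sum.inr s) = - (r : ZMod ℓ) * tf ℓ (H.p s) (H.q s) i) ∧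
      ∃ z : (S.pl (Sum.inr s)).adicCompletion K,
      algebraMap K _ (mi (H.p s) * Tm D0 (fun l => if l = H.q s then r else 0) (H.p s)) =
        z ^ ℓ * algebraMap K _ (mi (H.q s) * Tm D0 (fun l => if l = H.q s then r else 0) (H.q s)) := by
    intro s
    obtain ⟨v, hv⟩ : ∃ v, v = S.pl (Sum.inr s) := ⟨_, rfl⟩
    obtain ⟨c1, hc1, hc2⟩ := third H.hn3 (H.p s) (H.q s)
    have hpq : H.p s ≠ H.q s := ne_of_lt (H.lt s)
    obtain ⟨r, hr⟩ := D0.coll_place (p := p) (v := v) (Ω := Ω v) hpq hc1 hc2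
      (by
        intro i j hij h1 h2
        rw [hv]
        exact Lk.vNo s i j hij h1 h2)
      (by
        rw [hv, Lk.vNd s]
        exact exp_lt)
      (by
        rw [hv, Lk.vNd s]
        exact not_pw_exp hℓ.out)
      (by
        rw [hv]
        exact Lk.vN s)
      (Lk.vl v) (ht v)
    obtain ⟨mv, hmv⟩ : ∃ mv : Fin n → ℕ, mv = fun l => if l = H.q s then r else 0 := ⟨_, rfl⟩
    obtain ⟨Q, χ', kd', hQ, hχ', hz⟩ := hadj mv
    have hmq : mv (H.q s) = r := by rw [hmv]; exact if_pos rfl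
    have hmp : mv (H.p s) = 0 := by rw [hmv]; exact if_neg hpq
    obtain ⟨k1, k2⟩ := hr mv Q χ' kd' hmq hmp hQ hχ'
    refine ⟨r, ?_, ?_⟩
    · have hT := rep_Tm Lk mv
      have k3 : ∀ i j, U i (Sum.inr s) + (r : ZMod ℓ) * tf ℓ (H.p s) (H.q s) i =
          U j (Sum.inr s) + (r : ZMod ℓ) * tf ℓ (H.p s) (H.q s) j := by
        intro i j
        obtain ⟨z, hz0, e⟩ := hz i j
        have hi := S.mul (hrep i) (hT i)
        have hj := S.mul (hrep j) (hT j)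
        have hB := S.ne hj
        have h1 := S.mul hi (inv' hj)
        have e' : mi i * Tm D0 mv i * (mi j * Tm D0 mv j)⁻¹ = z ^ ℓ * kd'.d i j := by
          rw [e, mul_assoc, mul_assoc, mul_inv_cancel₀ hB, mul_one]
        rw [e'] at h1
        have h2 := S.val h1 (Sum.inr s) (by
          rw [← hv, map_mul, map_pow]
          exact (Pw.pow _).mul (k1 i j))
        have h3 : (U i (Sum.inr s) +
            - (tf ℓ (H.p s) (H.q s) i * ((mv (H.p s) : ZMod ℓ) - mv (H.q s)))) +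
          - (U j (Sum.inr s) +
            - (tf ℓ (H.p s) (H.q s) j * ((mv (H.p s) : ZMod ℓ) - mv (H.q s)))) = 0 := h2
        rw [hmp, hmq, Nat.cast_zero] at h3
        linear_combination h3
      have k4 := const_zero H.hn (fun i => U i (Sum.inr s) + (r : ZMod ℓ) * tf ℓ (H.p s) (H.q s) i)
        (by
          rw [sum_add_distrib, hsU, ← mul_sum, tf_sum, mul_zero, add_zero])
        k3
      intro i
      have k5 : U i (Sum.inr s) + (r : ZMod ℓ) * tf ℓ (H.p s) (H.q s) i = 0 := congrFun k4 i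
      linear_combination k5
    · rw [← hmv, ← hv]
      obtain ⟨z, hz0, e⟩ := hz (H.p s) (H.q s)
      exact hloc v _ _ _ z e k2
  choose r hr1 hr2 using hCl
  obtain ⟨w, hw⟩ : ∃ w : V ℓ (SW ℓ n) ι (Tau a),
      w = (fun x => ⟨fun i => U i (Sum.inl x), hsU (Sum.inl x)⟩, fun s => - (r s : ZMod ℓ)) :=
    ⟨_, rfl⟩
  obtain ⟨x0, hx0⟩ : ∃ x0 : SW ℓ n, x0 = ⟨cc, hsc⟩ := ⟨_, rfl⟩
  have hrep' : ∀ i, S.rep (mi i) 0 (x0.1 i) (uu H.p H.q w i) := by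
    intro i
    refine congr' (hrep i) rfl (by rw [hx0]) ?_
    rintro (x | s)
    · rw [hw]; rfl
    · rw [hr1, hw]; rfl
  have E1z : ∀ x, E1 (H.dat σ) (AT ℓ T) (BT ℓ (QQ a) T) (fun i => ((T i).natDegree : ZMod ℓ)) w x0 x
      = 0 := by
    intro x
    obtain ⟨mv, hmv⟩ := hTl x
    exact e1 Lk σ w x0 mi hrep' x mv hmv
  have E2z : ∀ s, E2 (H.dat σ) (BT ℓ (QQ a) T) w x0 s = 0 := by
    intro s
    exact e2 Lk σ hcl w x0 mi hrep' s (r s) (by rw [hw]) (hr2 s)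
  obtain ⟨y, hy1, hy2⟩ := key_of_triv (H.dat σ) (AT ℓ T) (BT ℓ (QQ a) T) _ hcl hpar htr w x0 E1z E2z
  -- the global comparison
  obtain ⟨m, hm⟩ : ∃ m : Fin n → ℕ, ∀ i, (m i : ZMod ℓ) = y.1 i := by
    refine ⟨fun i => (y.1 i).val, fun i => ?_⟩
    rw [ZMod.natCast_zmod_val]
  obtain ⟨Q, χ', kd', hQ, hχ', hz⟩ := hadj m
  have hT := rep_Tm Lk m
  have hwx : ∀ (x : ι) (i : Fin n), (w.1 x).1 i = (m i : ZMod ℓ) := by
    intro x i
    rw [hy1, hm]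
    rfl
  have hone : ∀ i, S.rep (mi i * Tm D0 m i) 0 0 0 := by
    intro i
    have hmf : (fun j => (m j : ZMod ℓ)) = y.1 := funext hm
    refine congr' (S.mul (hrep' i) (hT i)) (add_zero _) ?_ ?_
    · rw [hmf]
      have h1 : x0.1 i = - H.comb.ksf y.1 i := by rw [hy2]; rfl
      rw [h1, neg_add_cancel]
    · rintro (x | s)
      · show (w.1 x).1 i + - (m i : ZMod ℓ) = 0
        rw [hwx]
        exact add_neg_cancel _
      · show w.2 s * tf ℓ (H.p s) (H.q s) i +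
          - (tf ℓ (H.p s) (H.q s) i * ((m (H.p s) : ZMod ℓ) - m (H.q s))) = 0
        have h1 : w.2 s = y.1 (H.p s) - y.1 (H.q s) := by
          rw [hy1]
          exact dot_Tv y _ _
        rw [h1, hm, hm]
        ring
  have hsq : ∀ i j, ∃ z : K, kd'.d i j = z ^ ℓ := by
    intro i j
    obtain ⟨z, hz0, e⟩ := hz i j
    have hB := S.ne (hone j)
    have h1 := S.mul (hone i) (inv' (hone j))
    have h2 : mi i * Tm D0 m i * (mi j * Tm D0 m j)⁻¹ = z ^ ℓ * kd'.d i j := by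
      rw [e, mul_assoc, mul_assoc, mul_inv_cancel₀ hB, mul_one]
    rw [h2] at h1
    have h3 := S.pow_mul h1 (z := z⁻¹) (inv_ne_zero hz0)
    have h4 : z⁻¹ ^ ℓ * (z ^ ℓ * kd'.d i j) = kd'.d i j := by
      rw [← mul_assoc, ← mul_pow, inv_mul_cancel₀ hz0, one_pow, one_mul]
    rw [h4] at h3
    refine S.glo _ (congr' h3 ?_ ?_ (fun _ => ?_)) (fun x => ?_) hdeg
    · rw [neg_zero, add_zero]
    · rw [neg_zero, add_zero]
    · show (0 : ZMod ℓ) + - 0 = 0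
      rw [neg_zero, add_zero]
    · obtain ⟨mv, hmv⟩ := hTl x
      have hmv2 : ∀ i j, (mv i : ZMod ℓ) - mv j = (m i : ZMod ℓ) - m j := by
        intro i j
        rw [hmv' Lk w x0 mi hrep' x mv hmv i j, hwx, hwx]
      obtain ⟨u, hu⟩ := loc_shift D0 ((S.pl (Sum.inl x)).adicCompletion K) mi mv m hmv2 i j
        (hmv i j)
      have hB' : algebraMap K ((S.pl (Sum.inl x)).adicCompletion K) (mi j * Tm D0 m j) ≠ 0 :=
        (_root_.map_ne_zero _).2 hB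
      have hz' : algebraMap K ((S.pl (Sum.inl x)).adicCompletion K) z ≠ 0 :=
        (_root_.map_ne_zero _).2 hz0
      refine ⟨u / algebraMap K _ z, ?_⟩
      rw [e, map_mul, map_mul _ (kd'.d i j), map_pow, ← mul_assoc] at hu
      have h5 := mul_right_cancel₀ hB' hu
      rw [div_pow, eq_div_iff (pow_ne_zero _ hz'), ← h5, mul_comm]
  refine ⟨m, Q, hQ, fun τ => ?_⟩
  have h2 := hχ' τ
  rw [(D0.base E).cl_PT_of_modEq fun i j => ?_] at h2
  · exact (div_eq_one.1 h2.symm)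
  · obtain ⟨z, hz⟩ := hsq i j
    exact D0.modEq_of_pow kd' hz τ

end Pool.Agent.Y710.NZ
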