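import Pool.Agent.Y164.NZ.Stm

/-!
# NZ-ABS: the calculus and the equations
-/

set_option autoImplicit false
set_option linter.all false

open Polynomial IsDedekindDomain
open scoped Classical

namespace Pool.Agent.Y710.NZ

open Finset
open Pool.Agent.Y164.SZ
open Pool.Agent.Y164.NZ
open Pool.Agent.Y713.SE (hp Pw)
open Pool.Agent.Y164.PS (Fam)

section calcu
variable {ℓ : ℕ} [hℓ : Fact ℓ.Prime]
variable {k K : Type} [Field k] [Field K] [Algebra k[X] K] [IsFractionRing k[X] K]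
variable {F : Type} [Field F] [Fintype F] [DecidableEq F] {ι τ : Type} [Fintype ι] [Fintype τ]
variable {R : ι ⊕ τ → F[X]} {S : Sys ℓ k K R}

theorem congr' {d : K} {ω ω' c c' : ZMod ℓ} {u u' : ι ⊕ τ → ZMod ℓ} (h : S.rep d ω c u)
    (hω : ω = ω') (hc : c = c') (hu : ∀ x, u x = u' x) : S.rep d ω' c' u' := by
  have : u = u' := funext hu
  rw [← hω, ← hc, ← this]
  exact h

theorem pow' {d : K} {ω c : ZMod ℓ} {u : ι ⊕ τ → ZMod ℓ} (h : S.rep d ω c u) (m : ℕ) :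
    S.rep (d ^ m) (m * ω) (m * c) (fun x => m * u x) := by
  induction m with
  | zero =>
    rw [pow_zero]
    exact congr' S.one (by simp) (by simp) (fun x => by simp)
  | succ m ih =>
    rw [pow_succ]
    exact congr' (S.mul ih h) (by push_cast; ring) (by push_cast; ring)
      (fun x => by push_cast; ring)

theorem inv' {d : K} {ω c : ZMod ℓ} {u : ι ⊕ τ → ZMod ℓ} (h : S.rep d ω c u) :
    S.rep d⁻¹ (-ω) (-c) (fun x => - u x) := by
  have hd := S.ne h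
  have h1 := S.pow_mul (pow' h (ℓ - 1)) (z := d⁻¹) (inv_ne_zero hd)
  have h0 : ℓ - 1 + 1 = ℓ := Nat.sub_add_cancel hℓ.out.one_lt.le
  have h2 : (d⁻¹) ^ ℓ * d ^ (ℓ - 1) = d⁻¹ := by
    nth_rewrite 1 [← h0]
    rw [pow_succ, mul_right_comm, ← mul_pow, inv_mul_cancel₀ hd, one_pow, one_mul]
  rw [h2] at h1
  have h3 : ((ℓ - 1 : ℕ) : ZMod ℓ) = -1 := by
    rw [Nat.cast_sub hℓ.out.one_lt.le, Nat.cast_one, ZMod.natCast_self, zero_sub]
  refine congr' h1 ?_ ?_ (fun x => ?_)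
  · rw [h3, neg_one_mul]
  · rw [h3, neg_one_mul]
  · rw [h3, neg_one_mul]

theorem prod' {α : Type} (s : Finset α) {f : α → K} {w c : α → ZMod ℓ}
    {u : α → ι ⊕ τ → ZMod ℓ} (h : ∀ a ∈ s, S.rep (f a) (w a) (c a) (u a)) :
    S.rep (∏ a ∈ s, f a) (∑ a ∈ s, w a) (∑ a ∈ s, c a) (fun x => ∑ a ∈ s, u a x) := by
  induction s using Finset.induction_on with
  | empty =>
    rw [prod_empty]
    exact congr' S.one (by simp) (by simp) (fun x => by simp)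
  | insert a s ha ih =>
    rw [prod_insert ha]
    refine congr' (S.mul (h a (mem_insert_self _ _))
      (ih fun b hb => h b (mem_insert_of_mem hb))) ?_ ?_ ?_
    · rw [sum_insert ha]
    · rw [sum_insert ha]
    · intro x
      rw [sum_insert ha]

theorem quot_loc {d d' : K} {ω ω' c c' : ZMod ℓ} {u u' : ι ⊕ τ → ZMod ℓ} (h : S.rep d ω c u)
    (h' : S.rep d' ω' c' u') (y : ι ⊕ τ)
    (hloc : ∃ z : (S.pl y).adicCompletion K, algebraMap K _ d = z ^ ℓ * algebraMap K _ d') :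
    ω + - ω' = 0 ∧ u y + - u' y = 0 ∧
      ∑ x, (u x + - u' x) * L ℓ (R x) (R y) + ((R y).natDegree : ZMod ℓ) * (c + - c') = 0 := by
  have h1 := S.mul h (inv' h')
  refine S.loc h1 y ?_
  obtain ⟨z, hz⟩ := hloc
  refine ⟨z, ?_⟩
  have hB' : algebraMap K ((S.pl y).adicCompletion K) d' ≠ 0 := (_root_.map_ne_zero _).2 (S.ne h')
  rw [map_mul, map_inv₀, hz, mul_assoc, mul_inv_cancel₀ hB', mul_one]

end calcu

section tm
variable {ℓ : ℕ} {K : Type} [Field K] {n : ℕ}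

theorem Tm_add (D0 : Y713.SE.Dat ℓ n K) (m m' : Fin n → ℕ) (i : Fin n) :
    Tm D0 (fun j => m j + m' j) i = Tm D0 m i * Tm D0 m' i := by
  unfold Tm
  rw [← prod_mul_distrib]
  exact prod_congr rfl fun k _ => pow_add _ _ _

theorem dif_ne (D0 : Y713.SE.Dat ℓ n K) (i : Fin n) :
    ∏ j ∈ univ.erase i, (D0.e i - D0.e j) ≠ 0 :=
  prod_ne_zero_iff.2 fun j hj => sub_ne_zero.2 fun h => (ne_of_mem_erase hj).symm (D0.he h)

theorem Tm_const (D0 : Y713.SE.Dat ℓ n K) (c : ℕ) (i : Fin n) :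
    Tm D0 (fun _ => c) i = (D0.δ⁻¹) ^ c := by
  unfold Tm
  rw [prod_pow]
  congr 1
  rw [← mul_prod_erase univ _ (mem_univ i), if_pos rfl,
    prod_congr rfl (fun j hj => if_neg (ne_of_mem_erase hj)), mul_inv, mul_assoc,
    inv_mul_cancel₀ (dif_ne D0 i), mul_one]

theorem pow_modEq {f : K} (hf : f ≠ 0) {m m' : ℕ} (h : (m : ZMod ℓ) = m') :
    ∃ z : K, z ≠ 0 ∧ f ^ m = z ^ ℓ * f ^ m' := by
  obtain ⟨t, ht⟩ := Nat.modEq_iff_dvd.1 ((ZMod.natCast_eq_natCast_iff _ _ _).1 h)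
  refine ⟨f ^ (-t), zpow_ne_zero _ hf, ?_⟩
  rw [← zpow_natCast f m, ← zpow_natCast f m', ← zpow_natCast (f ^ (-t)) ℓ, ← zpow_mul,
    ← zpow_add₀ hf]
  congr 1
  linarith

theorem Tm_modEq (D0 : Y713.SE.Dat ℓ n K) (m m' : Fin n → ℕ)
    (h : ∀ j, (m j : ZMod ℓ) = m' j) (i : Fin n) :
    ∃ z : K, z ≠ 0 ∧ Tm D0 m i = z ^ ℓ * Tm D0 m' i := by
  have h1 : ∀ k : Fin n, (if k = i then (D0.δ * ∏ j ∈ univ.erase i, (D0.e i - D0.e j))⁻¹
      else D0.e i - D0.e k) ≠ 0 := by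
    intro k
    split_ifs with hk
    · exact inv_ne_zero (mul_ne_zero D0.hδ (dif_ne D0 i))
    · exact sub_ne_zero.2 fun h => hk (D0.he h).symm
  choose z hz1 hz2 using fun k => pow_modEq (h1 k) (h k)
  refine ⟨∏ k, z k, prod_ne_zero_iff.2 fun k _ => hz1 k, ?_⟩
  unfold Tm
  rw [prod_congr rfl fun k _ => hz2 k, prod_mul_distrib, prod_pow]

end tm

section link
variable {ℓ : ℕ} [hℓ : Fact ℓ.Prime]
variable {k K : Type} [Field k] [Field K] [Algebra k[X] K] [IsFractionRing k[X] K]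
variable {F : Type} [Field F] [Fintype F] [DecidableEq F]
variable {n : ℕ} {a : Fin n → F[X]} {N : ℕ} {H : Geo ℓ a N}
variable {ι : Type} [Fintype ι] {T : ι → F[X]} {S : Sys ℓ k K (RR a T)} {D0 : Y713.SE.Dat ℓ n K}

theorem rep_Tm (Lk : Link H T S D0) (m : Fin n → ℕ) (i : Fin n) :
    S.rep (Tm D0 m i) 0 (H.comb.ksf (fun j => (m j : ZMod ℓ)) i)
      (Sum.elim (fun _ => - (m i : ZMod ℓ))
        (fun s => - (tf ℓ (H.p s) (H.q s) i * ((m (H.p s) : ZMod ℓ) - m (H.q s))))) := by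
  have hdiff : ∀ j, j ≠ i → S.rep (D0.e i - D0.e j) 0 (H.comb.c i j)
      (Sum.elim (fun _ => 0) (fun s => mu ℓ H.p H.q i j s)) := fun j hj => Lk.diff i j hj.symm
  have h1 : ∀ k ∈ (univ : Finset (Fin n)), S.rep
      ((if k = i then (D0.δ * ∏ j ∈ univ.erase i, (D0.e i - D0.e j))⁻¹ else D0.e i - D0.e k) ^ m k)
      0
      ((m k : ZMod ℓ) * (if k = i then - ∑ j ∈ univ.erase i, H.comb.c i j else H.comb.c i k))
      (Sum.elim (fun _ => (m k : ZMod ℓ) * (if k = i then (-1 : ZMod ℓ) else 0))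
        (fun s => (m k : ZMod ℓ) * (if k = i then - ∑ j ∈ univ.erase i, mu ℓ H.p H.q i j s else
          mu ℓ H.p H.q i k s))) := by
    intro k _
    by_cases hk : k = i
    · simp only [if_pos hk]
      have h2 := S.mul Lk.twist (prod' (univ.erase i) (fun j hj => hdiff j (ne_of_mem_erase hj)))
      refine congr' (pow' (inv' h2) (m k)) ?_ ?_ ?_
      · simp
      · rw [zero_add]
      · rintro (x | s)
        · simp only [Sum.elim_inl, sum_const_zero, add_zero]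
        · simp only [Sum.elim_inr, zero_add]
    · simp only [if_neg hk]
      refine congr' (pow' (hdiff k hk) (m k)) (by simp) rfl ?_
      rintro (x | s)
      · simp only [Sum.elim_inl]
      · simp only [Sum.elim_inr]
  refine congr' (prod' univ h1) (by simp) ?_ ?_
  · rw [sum_special i (fun j => (m j : ZMod ℓ)) (fun j => H.comb.c i j)]
    rfl
  · rintro (x | s)
    · simp only [Sum.elim_inl]
      simp
    · simp only [Sum.elim_inr]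
      rw [sum_special i (fun j => (m j : ZMod ℓ)) (fun j => mu ℓ H.p H.q i j s)]
      refine Eq.trans ?_ ((H.hC ℓ n (Tau a) H.comb).1 (fun j => (m j : ZMod ℓ)) i s)
      refine sum_congr rfl fun j _ => ?_
      rw [mul_comm]
      rfl

/-- the combined exponents -/
noncomputable def ex (p q : Tau a → Fin n) (w : V ℓ (SW ℓ n) ι (Tau a)) (mv : Fin n → ℕ) (i : Fin n) :
    ι ⊕ Tau a → ZMod ℓ :=
  fun y => uu p q w i y + Sum.elim (fun _ : ι => - (mv i : ZMod ℓ))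
    (fun s => - (tf ℓ (p s) (q s) i * ((mv (p s) : ZMod ℓ) - mv (q s)))) y

/-- the conditions at a prime of the family -/
theorem loc_cond (Lk : Link H T S D0)
    (w : V ℓ (SW ℓ n) ι (Tau a)) (x0 : SW ℓ n) (mi : Fin n → K)
    (hrep : ∀ i, S.rep (mi i) 0 (x0.1 i) (uu H.p H.q w i))
    (y : ι ⊕ Tau a) (mv : Fin n → ℕ) (i j : Fin n)
    (hloc : ∃ z : (S.pl y).adicCompletion K,
      algebraMap K _ (mi i * Tm D0 mv i) = z ^ ℓ * algebraMap K _ (mi j * Tm D0 mv j)) :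
    ex H.p H.q w mv i y + - ex H.p H.q w mv j y = 0 ∧
      ∑ x, (ex H.p H.q w mv i x + - ex H.p H.q w mv j x) * L ℓ (RR a T x) (RR a T y) +
        ((RR a T y).natDegree : ZMod ℓ) *
        ((x0.1 i + H.comb.ksf (fun j => (mv j : ZMod ℓ)) i) +
          - (x0.1 j + H.comb.ksf (fun j => (mv j : ZMod ℓ)) j)) = 0 := by
  have hi := S.mul (hrep i) (rep_Tm Lk mv i)
  have hj := S.mul (hrep j) (rep_Tm Lk mv j)
  exact (quot_loc hi hj y hloc).2

theorem E1_coord (σ : Tau a → ZMod ℓ) (A : ι → ι → ZMod ℓ) (B : ι → Tau a → ZMod ℓ) (d : ι → ZMod ℓ)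
    (w : V ℓ (SW ℓ n) ι (Tau a)) (x0 : SW ℓ n) (x : ι) (i : Fin n) :
    (E1 (H.dat σ) A B d w x0 x).1 i =
      ∑ y, A x y * ((w.1 y).1 i - (w.1 x).1 i) +
      ∑ s, B x s * (w.2 s * tf ℓ (H.p s) (H.q s) i -
        ((w.1 x).1 (H.p s) - (w.1 x).1 (H.q s)) * tf ℓ (H.p s) (H.q s) i) +
      d x * (H.comb.ksf (w.1 x).1 i + x0.1 i) := by
  rw [E1]
  have h1 : ∀ (f g h : SW ℓ n), (f + g + h).1 i = f.1 i + g.1 i + h.1 i := fun _ _ _ => rfl
  rw [h1]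
  congr 1
  congr 1
  · rw [Submodule.coe_sum, Finset.sum_apply]
    rfl
  · rw [Submodule.coe_sum, Finset.sum_apply]
    refine sum_congr rfl fun s _ => ?_
    show B x s * (w.2 s * tf ℓ (H.p s) (H.q s) i -
      dot ℓ n (w.1 x) (Tv ℓ (H.p s) (H.q s)) * tf ℓ (H.p s) (H.q s) i) = _
    rw [dot_Tv]

theorem hmv' (Lk : Link H T S D0)
    (w : V ℓ (SW ℓ n) ι (Tau a)) (x0 : SW ℓ n) (mi : Fin n → K)
    (hrep : ∀ i, S.rep (mi i) 0 (x0.1 i) (uu H.p H.q w i)) (x : ι) (mv : Fin n → ℕ)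
    (hloc : ∀ i j, ∃ z : (S.pl (Sum.inl x)).adicCompletion K,
      algebraMap K _ (mi i * Tm D0 mv i) = z ^ ℓ * algebraMap K _ (mi j * Tm D0 mv j)) (i j : Fin n) :
    (mv i : ZMod ℓ) - mv j = (w.1 x).1 i - (w.1 x).1 j := by
  have h1 := (loc_cond Lk w x0 mi hrep (Sum.inl x) mv i j (hloc i j)).1
  have h2 : ((w.1 x).1 i + - (mv i : ZMod ℓ)) + - ((w.1 x).1 j + - (mv j : ZMod ℓ)) = 0 := h1
  linear_combination -h2

theorem e1 (Lk : Link H T S D0) (σ : Tau a → ZMod ℓ)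
    (w : V ℓ (SW ℓ n) ι (Tau a)) (x0 : SW ℓ n) (mi : Fin n → K)
    (hrep : ∀ i, S.rep (mi i) 0 (x0.1 i) (uu H.p H.q w i)) (x : ι) (mv : Fin n → ℕ)
    (hloc : ∀ i j, ∃ z : (S.pl (Sum.inl x)).adicCompletion K,
      algebraMap K _ (mi i * Tm D0 mv i) = z ^ ℓ * algebraMap K _ (mi j * Tm D0 mv j)) :
    E1 (H.dat σ) (AT ℓ T) (BT ℓ (QQ a) T) (fun i => ((T i).natDegree : ZMod ℓ)) w x0 x = 0 := by
  have key := fun i j => loc_cond Lk w x0 mi hrep (Sum.inl x) mv i j (hloc i j)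
  have hmv : ∀ i j, (mv i : ZMod ℓ) - mv j = (w.1 x).1 i - (w.1 x).1 j :=
    hmv' Lk w x0 mi hrep x mv hloc
  have hks : ∀ i, H.comb.ksf (fun j => (mv j : ZMod ℓ)) i = H.comb.ksf (w.1 x).1 i := by
    intro i
    refine sum_congr rfl fun l _ => ?_
    show ((mv l : ZMod ℓ) - mv i) * _ = _
    rw [hmv]
  apply Subtype.ext
  refine const_zero H.hn _ (E1 (H.dat σ) (AT ℓ T) (BT ℓ (QQ a) T)
    (fun i => ((T i).natDegree : ZMod ℓ)) w x0 x).2 ?_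
  intro i j
  rw [E1_coord, E1_coord]
  have h1 := (key i j).2
  rw [Fintype.sum_sum_type] at h1
  have e1 : ∑ y, AT ℓ T x y * ((w.1 y).1 i - (w.1 x).1 i) -
      ∑ y, AT ℓ T x y * ((w.1 y).1 j - (w.1 x).1 j) =
      ∑ y : ι, (ex H.p H.q w mv i (Sum.inl y) + - ex H.p H.q w mv j (Sum.inl y)) *
        L ℓ (RR a T (Sum.inl y)) (RR a T (Sum.inl x)) := by
    rw [← sum_sub_distrib]
    refine sum_congr rfl fun y _ => ?_
    show AT ℓ T x y * ((w.1 y).1 i - (w.1 x).1 i) - AT ℓ T x y * ((w.1 y).1 j - (w.1 x).1 j) =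
      (((w.1 y).1 i + - (mv i : ZMod ℓ)) + - ((w.1 y).1 j + - (mv j : ZMod ℓ))) * L ℓ (T y) (T x)
    have h2 : AT ℓ T x y = L ℓ (T y) (T x) := H.S.L_comm _ _
    rw [h2]
    linear_combination L ℓ (T y) (T x) * hmv i j
  have e2' : ∑ s, BT ℓ (QQ a) T x s * (w.2 s * tf ℓ (H.p s) (H.q s) i -
        ((w.1 x).1 (H.p s) - (w.1 x).1 (H.q s)) * tf ℓ (H.p s) (H.q s) i) -
      ∑ s, BT ℓ (QQ a) T x s * (w.2 s * tf ℓ (H.p s) (H.q s) j -
        ((w.1 x).1 (H.p s) - (w.1 x).1 (H.q s)) * tf ℓ (H.p s) (H.q s) j) =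
      ∑ s : Tau a, (ex H.p H.q w mv i (Sum.inr s) + - ex H.p H.q w mv j (Sum.inr s)) *
        L ℓ (RR a T (Sum.inr s)) (RR a T (Sum.inl x)) := by
    rw [← sum_sub_distrib]
    refine sum_congr rfl fun s _ => ?_
    show _ = ((w.2 s * tf ℓ (H.p s) (H.q s) i +
        - (tf ℓ (H.p s) (H.q s) i * ((mv (H.p s) : ZMod ℓ) - mv (H.q s)))) +
      - (w.2 s * tf ℓ (H.p s) (H.q s) j +
        - (tf ℓ (H.p s) (H.q s) j * ((mv (H.p s) : ZMod ℓ) - mv (H.q s))))) *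
      L ℓ (QQ a s) (T x)
    have h2 : BT ℓ (QQ a) T x s = L ℓ (QQ a s) (T x) := H.S.L_comm _ _
    rw [h2, hmv]
    ring
  rw [← e1, ← e2', hks, hks] at h1
  have hd : ((RR a T (Sum.inl x)).natDegree : ZMod ℓ) = ((T x).natDegree : ZMod ℓ) := rfl
  rw [hd] at h1
  rw [← sub_eq_zero]
  rw [← h1]
  ring

theorem e2 (Lk : Link H T S D0) (σ : Tau a → ZMod ℓ) (hcl : cl (H.dat σ) (QQ a) T)
    (w : V ℓ (SW ℓ n) ι (Tau a)) (x0 : SW ℓ n) (mi : Fin n → K)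
    (hrep : ∀ i, S.rep (mi i) 0 (x0.1 i) (uu H.p H.q w i))
    (s : Tau a) (r : ℕ) (hr : w.2 s = - (r : ZMod ℓ))
    (hloc : ∃ z : (S.pl (Sum.inr s)).adicCompletion K,
      algebraMap K _ (mi (H.p s) * Tm D0 (fun l => if l = H.q s then r else 0) (H.p s)) =
        z ^ ℓ * algebraMap K _ (mi (H.q s) * Tm D0 (fun l => if l = H.q s then r else 0) (H.q s))) :
    E2 (H.dat σ) (BT ℓ (QQ a) T) w x0 s = 0 := by
  obtain ⟨mv, hmv⟩ : ∃ mv : Fin n → ℕ, mv = fun l => if l = H.q s then r else 0 := ⟨_, rfl⟩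
  rw [← hmv] at hloc
  have hij : H.p s ≠ H.q s := ne_of_lt (H.lt s)
  have h3 := (loc_cond Lk w x0 mi hrep (Sum.inr s) mv (H.p s) (H.q s) hloc).2
  rw [Fintype.sum_sum_type] at h3
  have hmi : (mv (H.p s) : ZMod ℓ) = 0 := by
    rw [hmv]
    simp only [if_neg hij, Nat.cast_zero]
  have hmj : (mv (H.q s) : ZMod ℓ) = - w.2 s := by
    rw [hmv]
    simp only [if_true]
    rw [hr, neg_neg]
  have h4 : ∑ s', L ℓ (QQ a s) (QQ a s') * (((mv (H.p s') : ZMod ℓ) - mv (H.q s')) *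
      (tf ℓ (H.p s') (H.q s') (H.p s) - tf ℓ (H.p s') (H.q s') (H.q s))) -
      ((QQ a s).natDegree : ZMod ℓ) * (H.comb.ksf (fun l => (mv l : ZMod ℓ)) (H.p s) -
        H.comb.ksf (fun l => (mv l : ZMod ℓ)) (H.q s)) =
      H.comb.gg s * ((mv (H.p s) : ZMod ℓ) - mv (H.q s)) :=
    (H.hC ℓ n (Tau a) H.comb).2.2.2.1 s (fun l => (mv l : ZMod ℓ))
  have e1 : ∑ y : ι, (ex H.p H.q w mv (H.p s) (Sum.inl y) + - ex H.p H.q w mv (H.q s) (Sum.inl y)) *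
        L ℓ (RR a T (Sum.inl y)) (RR a T (Sum.inr s)) =
      ∑ y, BT ℓ (QQ a) T y s * ((w.1 y).1 (H.p s) - (w.1 y).1 (H.q s)) -
        w.2 s * ∑ y, BT ℓ (QQ a) T y s := by
    rw [mul_sum, ← sum_sub_distrib]
    refine sum_congr rfl fun y _ => ?_
    show (((w.1 y).1 (H.p s) + - (mv (H.p s) : ZMod ℓ)) +
      - ((w.1 y).1 (H.q s) + - (mv (H.q s) : ZMod ℓ))) * L ℓ (T y) (QQ a s) =
      L ℓ (T y) (QQ a s) * ((w.1 y).1 (H.p s) - (w.1 y).1 (H.q s)) - w.2 s * L ℓ (T y) (QQ a s)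
    rw [hmi, hmj]
    ring
  have e2' : ∑ s' : Tau a, (ex H.p H.q w mv (H.p s) (Sum.inr s') +
        - ex H.p H.q w mv (H.q s) (Sum.inr s')) *
        L ℓ (RR a T (Sum.inr s')) (RR a T (Sum.inr s)) =
      ∑ s', L ℓ (QQ a s) (QQ a s') * (w.2 s' *
        (tf ℓ (H.p s') (H.q s') (H.p s) - tf ℓ (H.p s') (H.q s') (H.q s))) -
      ∑ s', L ℓ (QQ a s) (QQ a s') * (((mv (H.p s') : ZMod ℓ) - mv (H.q s')) *
        (tf ℓ (H.p s') (H.q s') (H.p s) - tf ℓ (H.p s') (H.q s') (H.q s))) := by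
    rw [← sum_sub_distrib]
    refine sum_congr rfl fun s' _ => ?_
    show ((w.2 s' * tf ℓ (H.p s') (H.q s') (H.p s) +
        - (tf ℓ (H.p s') (H.q s') (H.p s) * ((mv (H.p s') : ZMod ℓ) - mv (H.q s')))) +
      - (w.2 s' * tf ℓ (H.p s') (H.q s') (H.q s) +
        - (tf ℓ (H.p s') (H.q s') (H.q s) * ((mv (H.p s') : ZMod ℓ) - mv (H.q s'))))) *
      L ℓ (QQ a s') (QQ a s) = _
    rw [H.S.L_comm (QQ a s') (QQ a s)]
    ring
  rw [e1, e2'] at h3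
  have h5 : E2 (H.dat σ) (BT ℓ (QQ a) T) w x0 s =
      σ s * w.2 s + ∑ y, BT ℓ (QQ a) T y s * ((w.1 y).1 (H.p s) - (w.1 y).1 (H.q s)) +
      ∑ s', L ℓ (QQ a s) (QQ a s') * (w.2 s' *
        (tf ℓ (H.p s') (H.q s') (H.p s) - tf ℓ (H.p s') (H.q s') (H.q s))) +
      ((QQ a s).natDegree : ZMod ℓ) * (x0.1 (H.p s) - x0.1 (H.q s)) := by
    have g1 : E2 (H.dat σ) (BT ℓ (QQ a) T) w x0 s =
      σ s * w.2 s + ∑ y, BT ℓ (QQ a) T y s * dot ℓ n (w.1 y) (Tv ℓ (H.p s) (H.q s)) +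
      ∑ s', L ℓ (QQ a s) (QQ a s') * (w.2 s' *
        dot ℓ n (Tv ℓ (H.p s') (H.q s')) (Tv ℓ (H.p s) (H.q s))) +
      ((QQ a s).natDegree : ZMod ℓ) * dot ℓ n x0 (Tv ℓ (H.p s) (H.q s)) := rfl
    rw [g1]
    simp only [dot_Tv]
    rfl
  rw [h5]
  have h6 : σ s + ∑ i, BT ℓ (QQ a) T i s + H.comb.gg s = 0 := hcl s
  rw [hmi, hmj] at h4
  have hd : ((RR a T (Sum.inr s)).natDegree : ZMod ℓ) = ((QQ a s).natDegree : ZMod ℓ) := rfl
  rw [hd] at h3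
  linear_combination h3 + h4 + w.2 s * h6

end link

end Pool.Agent.Y710.NZ
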